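import Mathlib
import Pool.Agent.H.MP_33fb9b_co.B

namespace Pool.Agent.Results.MP_33fb9b_co.Counter
open Pool.Agent.H.MP_33fb9b_co List

/-- Linear extensions: repetition-free listings of all elements in which no element is followed
by a strictly smaller one. -/
def LinExt (P : Type) [PartialOrder P] : Set (List P) :=
  {l | l.Nodup ∧ (∀ x, x ∈ l) ∧ l.Pairwise (fun a b => ¬ b < a)}

/-- Probability that `x` comes before `y` in a uniformly random linear extension. -/
noncomputable def prob {P : Type} [PartialOrder P] (x y : P) : ℝ :=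
  ({l ∈ LinExt P | [x, y].Sublist l}.ncard : ℝ) / ((LinExt P).ncard : ℝ)

/-- `P` is a direct sum of `k` blocks; the blocks with index in `A` are single points, the others
are copies of a two-element chain plus an isolated point. -/
def InD (P : Type) [PartialOrder P] : Prop :=
  ∃ (k : ℕ) (A : Set (Fin k)), Nonempty (P ≃o
    {p : Fin k ×ₗ (Fin 2 ⊕ Unit) // (ofLex p).1 ∈ A → (ofLex p).2 = Sum.inr ()})

def W : Type := T

instance : Fintype W := inferInstanceAs (Fintype T)
instance : DecidableEq W := inferInstanceAs (DecidableEq T)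

instance : PartialOrder W where
  le a b := a = b ∨ r a b
  lt a b := r a b
  le_refl _ := Or.inl rfl
  le_trans a b c := by
    rintro (rfl | h1) (rfl | h2)
    exacts [Or.inl rfl, Or.inr h2, Or.inr h1, Or.inr (trans _ _ h1 _ h2)]
  le_antisymm a b := by
    rintro (rfl | h1) (h2 | h2)
    exacts [rfl, rfl, h2.symm, absurd (trans _ _ h1 _ h2) (irr _)]
  lt_iff_le_not_ge a b := by
    refine ⟨fun h => ⟨Or.inr h, ?_⟩, ?_⟩
    · rintro (rfl | h2)
      exacts [irr _ h, irr _ (trans _ _ h _ h2)]
    · rintro ⟨rfl | h, h2⟩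
      exacts [absurd (Or.inl rfl) h2, h]

theorem ext_eq : LinExt W = @LX T _ r (S 20 21) := by
  have : S 20 21 = Finset.univ := by decide +kernel
  ext l
  simp only [LinExt, LX, this, Set.mem_ofPred_eq, Finset.eq_univ_iff_forall]
  refine and_congr_right fun _ => and_congr (forall_congr' fun x => ?_) Iff.rfl
  exact List.mem_toFinset.symm

theorem zero (x y : W) (h : y ≤ x) : prob x y = 0 := by
  have : {l ∈ LinExt W | [x, y].Sublist l} = ∅ := by
    ext l
    simp only [Set.mem_ofPred_eq, Set.mem_empty_iff_false, iff_false, not_and]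
    rintro ⟨h1, -, h2⟩ h3
    have k1 := h1.sublist h3
    have k2 := h2.sublist h3
    simp only [nodup_cons, mem_singleton, pairwise_pair] at k1 k2
    exact k2 (lt_of_le_of_ne h (Ne.symm k1.1))
  simp [prob, this]

theorem result : ∃ (P : Type) (_ : Fintype P) (_ : PartialOrder P), Nonempty P ∧ ¬ InD P ∧
    IsGreatest {n | ∃ A : Set P, IsAntichain (· ≤ ·) A ∧ A.ncard = n} 2 ∧ 0 < (LinExt P).ncard ∧
    ∀ x y : P, min (prob x y) (prob y x) < (5864893 + 27 * √57) / 16812976 := by
  have tot : (LinExt W).ncard = 1583915616 := by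
    have := (chk (.inl 0) (.inr 0) (by decide) (by decide) (by decide)).1
    rw [good_eq] at this
    rw [ext_eq]
    simp only [F, Set.sep_true] at this
    exact this
  refine ⟨W, inferInstance, inferInstance, ⟨Sum.inl 0⟩, ?_, ?_, by omega, ?_⟩
  · rintro ⟨k, A, ⟨e⟩⟩
    have h1 : ∀ x y : W, ¬ x ≤ y → ¬ y ≤ x → (ofLex (e x).1).1 = (ofLex (e y).1).1 := by
      intro x y h1 h2
      rw [← e.le_iff_le, ← Subtype.coe_le_coe, Prod.Lex.le_iff] at h1 h2
      exact le_antisymm (not_lt.mp fun h => h2 (Or.inl h)) (not_lt.mp fun h => h1 (Or.inl h))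
    let z : Fin 4 → T := ![.inl 0, .inr 0, .inr 1, .inr 2]
    have h2 : ∀ i, z i = .inl 0 ∨ (¬ (z i = .inl 0 ∨ r (z i) (.inl 0)) ∧
        ¬ (.inl 0 = z i ∨ r (.inl 0) (z i))) := by unfold r; decide
    have h3 : ∀ i, (ofLex (e (z i)).1).1 = (ofLex (e (Sum.inl 0)).1).1 := fun i => by
      rcases h2 i with h | h
      · rw [h]
      · exact h1 _ _ h.1 h.2
    have h4 : Function.Injective z := by decide
    have := Fintype.card_le_of_injective (fun i => (ofLex (e (z i)).1).2) fun i j h =>
      h4 (e.injective (Subtype.ext (ofLex.injective (Prod.ext ((h3 i).trans (h3 j).symm) h))))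
    simp at this
  · have hne : (Sum.inl 0 : W) ≠ Sum.inr 0 := Sum.inl_ne_inr
    refine ⟨⟨{Sum.inl 0, Sum.inr 0}, ?_, Set.ncard_pair hne⟩, ?_⟩
    · have h2 : ¬ ((Sum.inl 0 : T) = .inr 0 ∨ r (.inl 0) (.inr 0)) ∧
        ¬ ((Sum.inr 0 : T) = .inl 0 ∨ r (.inr 0) (.inl 0)) := by unfold r; decide
      rintro _ (rfl | rfl) _ (rfl | rfl) h
      exacts [absurd rfl h, h2.1, h2.2, absurd rfl h]
    · rintro _ ⟨A, hA, rfl⟩
      have h2 : ∀ x y : T, x.isLeft = y.isLeft → x = y ∨ r x y ∨ r y x := by
        unfold r; decide +kernel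
      have := Set.ncard_le_ncard_of_injOn (s := A) (t := Set.univ) Sum.isLeft (fun _ _ => trivial)
        (fun x hx y hy h => by
          by_contra hn
          rcases h2 x y h with h | h | h
          exacts [hn h, hA hx hy hn (Or.inr h), hA hy hx (Ne.symm hn) (Or.inr h)])
      simpa using this
  · intro x y
    have hb : (348843 / 1000000 : ℝ) < (5864893 + 27 * √57) / 16812976 := by
      have : (7.5 : ℝ) < √57 := Real.lt_sqrt_of_sq_lt (by norm_num)
      linarith
    refine lt_trans ?_ hb
    by_cases h1 : x ≤ y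
    · exact min_lt_of_right_lt (by rw [zero y x h1]; norm_num)
    by_cases h2 : y ≤ x
    · exact min_lt_of_left_lt (by rw [zero x y h2]; norm_num)
    have k : ∀ x y : W, (good x y).2 * 1000000 < 348843 * 1583915616 →
        prob x y < 348843 / 1000000 := by
      intro x y h
      rw [good_eq] at h
      rw [prob, tot, ext_eq, div_lt_div_iff₀ (by norm_num) (by norm_num)]
      exact_mod_cast h
    exact min_lt_iff.mpr ((chk x y (fun h => h1 (Or.inl h))
      (Bool.eq_false_iff.mpr fun h => h1 (Or.inr h))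
      (Bool.eq_false_iff.mpr fun h => h2 (Or.inr h))).2.imp (k x y) (k y x))

end Pool.Agent.Results.MP_33fb9b_co.Counter
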